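import Pool.Agent.W322.HB.Stmts

/-! Class vectors: which vectors occur (TaskOdd, TaskEven). -/

set_option autoImplicit false

namespace Pool.Agent.W333.HB

open Finset Pool.Agent.W322.HB

/-- the quotient map -/
noncomputable def mk (Q n : ℕ) (p : ℕ → ℕ) : (ZMod Q → ℤ) →+ (ZMod Q → ℤ) ⧸ HH Q n p :=
  QuotientAddGroup.mk' (HH Q n p)

theorem mk_eq_zero {Q n : ℕ} {p : ℕ → ℕ} {M : ZMod Q → ℤ} : mk Q n p M = 0 ↔ M ∈ HH Q n p :=
  QuotientAddGroup.eq_zero_iff M

theorem mk_Ef {Q n : ℕ} {p : ℕ → ℕ} (l : ℕ → ZMod Q) : mk Q n p (Ef Q n p l) = 0 :=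
  mk_eq_zero.2 (AddSubgroup.subset_closure ⟨l, rfl⟩)

theorem Ef_last {Q C n : ℕ} {p : ℕ → ℕ} (hs : Shape C n p) (s c : ZMod Q) :
    Ef Q n p (Function.update (fun _ => s) (n - 1) c) =
      (sg Q (s - c) - sg Q c) +
        ∑ _i ∈ ((range n).filter (fun i => 0 < i)).erase (n - 1), (sg Q (s - s) - sg Q s) := by
  have h2 := hs.two
  have hb : n - 1 ∈ (range n).filter (fun i => 0 < i) := by
    rw [mem_filter, mem_range]; omega
  unfold Ef
  rw [← add_sum_erase _ _ hb]
  congr 1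
  · have h1 : p (n - 1) < n - 1 := hs.lt _ (by omega) (by omega)
    rw [Function.update_of_ne (by omega), Function.update_self]
  · refine sum_congr rfl fun i hi => ?_
    rw [mem_erase, mem_filter, mem_range] at hi
    have h1 : p i < i := hs.lt _ hi.2.2 hi.2.1
    rw [Function.update_of_ne (by omega), Function.update_of_ne hi.1]

theorem relA {Q C n : ℕ} {p : ℕ → ℕ} (hs : Shape C n p) (s c : ZMod Q) :
    mk Q n p (sg Q (s - c)) - mk Q n p (sg Q c) = mk Q n p (sg Q s) - mk Q n p (sg Q 0) := by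
  have h1 := mk_Ef (n := n) (p := p) (Function.update (fun _ => s) (n - 1) c)
  have h2 := mk_Ef (n := n) (p := p) (Function.update (fun _ => s) (n - 1) (0 : ZMod Q))
  rw [Ef_last hs, map_add, map_sub] at h1 h2
  rw [sub_zero] at h2
  exact add_right_cancel (h1.trans h2.symm)

/-- the class of `[s] - [0]` -/
noncomputable def th (Q n : ℕ) (p : ℕ → ℕ) (s : ZMod Q) : (ZMod Q → ℤ) ⧸ HH Q n p :=
  mk Q n p (sg Q s) - mk Q n p (sg Q 0)

theorem th_two {Q C n : ℕ} {p : ℕ → ℕ} (hs : Shape C n p) (s : ZMod Q) :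
    th Q n p s + th Q n p s = 0 := by
  have h1 := relA hs s s
  rw [sub_self] at h1
  unfold th
  rw [← h1]
  nth_rewrite 2 [h1]
  abel

theorem th_add {Q C n : ℕ} {p : ℕ → ℕ} (hs : Shape C n p) (s s' : ZMod Q) :
    th Q n p (s + s') = th Q n p s + th Q n p s' := by
  have h1 := relA hs (s + s') s
  rw [add_sub_cancel_left] at h1
  have h2 := th_two hs s
  have h3 : th Q n p (s + s') = th Q n p s' - th Q n p s := by
    unfold th
    rw [← h1]
    abel
  rw [h3]
  have h4 : th Q n p s = - th Q n p s := eq_neg_of_add_eq_zero_left h2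
  rw [sub_eq_add_neg, ← h4, add_comm]

/-- `th` as a homomorphism -/
noncomputable def tau {Q C n : ℕ} {p : ℕ → ℕ} (hs : Shape C n p) :
    ZMod Q →+ (ZMod Q → ℤ) ⧸ HH Q n p where
  toFun := th Q n p
  map_zero' := by unfold th; rw [sub_self]
  map_add' := th_add hs

theorem mk_sg {Q C n : ℕ} {p : ℕ → ℕ} (hs : Shape C n p) (s : ZMod Q) :
    mk Q n p (sg Q s) = mk Q n p (sg Q 0) + tau hs s := by
  show _ = _ + th Q n p s
  unfold th
  abel

theorem tau_two {Q C n : ℕ} {p : ℕ → ℕ} (hs : Shape C n p) (s : ZMod Q) :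
    tau hs s + tau hs s = 0 := th_two hs s

theorem tau_neg {Q C n : ℕ} {p : ℕ → ℕ} (hs : Shape C n p) (s : ZMod Q) :
    - tau hs s = tau hs s := (eq_neg_of_add_eq_zero_left (tau_two hs s)).symm

theorem odd_nsmul {Q C n : ℕ} {p : ℕ → ℕ} (hs : Shape C n p) (s : ZMod Q) {k : ℕ} (hk : Odd k)
    (h : k • tau hs s = 0) : tau hs s = 0 := by
  obtain ⟨r, rfl⟩ := hk
  rw [add_nsmul, one_nsmul, mul_comm, mul_nsmul, two_nsmul] at h
  have h1 : r • tau hs s + r • tau hs s = 0 := by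
    rw [← nsmul_add, tau_two, nsmul_zero]
  rw [h1, zero_add] at h
  exact h

theorem taskEven : TaskEven := by
  intro Q C n p _ hs A B hAB hpar
  rw [← mk_eq_zero, map_sub, map_sum, map_sum]
  have h1 : ∀ D : Finset ℕ, ∑ x ∈ D, mk Q n p (sg Q (x : ZMod Q)) =
      D.card • mk Q n p (sg Q 0) + tau hs ((∑ x ∈ D, x : ℕ) : ZMod Q) := by
    intro D
    rw [show ∑ x ∈ D, mk Q n p (sg Q (x : ZMod Q)) =
      ∑ x ∈ D, (mk Q n p (sg Q 0) + tau hs (x : ZMod Q)) from sum_congr rfl fun x _ => mk_sg hs _,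
      sum_add_distrib, sum_const, ← map_sum]
    push_cast
    rfl
  rw [h1, h1, hAB]
  have h2 : B.card • mk Q n p (sg Q 0) + tau hs ((∑ x ∈ A, x : ℕ) : ZMod Q) -
      (B.card • mk Q n p (sg Q 0) + tau hs ((∑ x ∈ B, x : ℕ) : ZMod Q)) =
      tau hs (((∑ x ∈ A, x + ∑ x ∈ B, x : ℕ) : ℕ) : ZMod Q) := by
    rw [Nat.cast_add, map_add, add_sub_add_left_eq_sub, sub_eq_add_neg, tau_neg]
  rw [h2]
  rcases hpar with hQ | hev
  · apply odd_nsmul hs _ hQ
    rw [← map_nsmul, nsmul_eq_mul, CharP.cast_eq_zero, zero_mul, map_zero]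
  · obtain ⟨r, hr⟩ := hev
    rw [hr, Nat.cast_add, map_add, tau_two]

theorem taskOdd : TaskOdd := by
  intro Q C n p _ hs ⟨j, hj, hodd⟩ M hM
  -- `tau 1 = 0`
  have h1 := mk_Ef (n := n) (p := p) (fun i => if i = j then (1 : ZMod Q) else 0)
  unfold Ef at h1
  rw [map_sum] at h1
  have h2 : ∀ i ∈ (range n).filter (fun i => 0 < i),
      mk Q n p (sg Q ((if p i = j then (1 : ZMod Q) else 0) - (if i = j then 1 else 0)) -
        sg Q (if i = j then (1 : ZMod Q) else 0)) = if p i = j then tau hs 1 else 0 := by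
    intro i _
    rw [map_sub, mk_sg hs (_ - _), mk_sg hs (if i = j then (1 : ZMod Q) else 0), map_sub]
    have h3 := tau_two hs (if i = j then (1 : ZMod Q) else 0)
    have h4 : tau hs (if p i = j then (1 : ZMod Q) else 0) = if p i = j then tau hs 1 else 0 := by
      split_ifs
      · rfl
      · exact map_zero _
    rw [← h4]
    set a := mk Q n p (sg Q 0)
    set t := tau hs (if i = j then (1 : ZMod Q) else 0)
    set u := tau hs (if p i = j then (1 : ZMod Q) else 0)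
    have h5 : a + (u - t) - (a + t) = u - (t + t) := by abel
    rw [h5, h3, sub_zero]
  rw [sum_congr rfl h2, ← sum_filter, sum_const, filter_filter] at h1
  have h3 : tau hs (1 : ZMod Q) = 0 := odd_nsmul hs 1 hodd h1
  have h4 : ∀ c : ZMod Q, tau hs c = 0 := by
    intro c
    have : c = c.val • (1 : ZMod Q) := by
      rw [nsmul_eq_mul, mul_one, ZMod.natCast_zmod_val]
    rw [this, map_nsmul, h3, nsmul_zero]
  rw [← mk_eq_zero]
  have h5 : M = ∑ c, M c • sg Q c := by
    funext x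
    rw [Finset.sum_apply, sum_eq_single x]
    · simp [sg]
    · intro y _ hy
      simp [sg, Ne.symm hy]
    · intro h; exact absurd (mem_univ x) h
  rw [h5, map_sum]
  have h6 : ∀ c ∈ (univ : Finset (ZMod Q)), mk Q n p (M c • sg Q c) = M c • mk Q n p (sg Q 0) := by
    intro c _
    rw [map_zsmul, mk_sg hs, h4, add_zero]
  rw [sum_congr rfl h6, ← sum_smul, hM, zero_smul]

end Pool.Agent.W333.HB
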